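import Pool.Agent.Helper13.FanoMax

/-!
# Nested compression spaces form irreducible components

All the definitions are in `Pool/Agent/Helper13/FanoDefs.lean`:

* `FanoPt K n r k` is the set of `(k + 1)`-dimensional linear spaces `Q` of symmetric `n × n`
  matrices over `K` all of whose elements have rank `< r`, i.e. of the `K`-points of the Fano
  scheme of projective `k`-planes in the variety of symmetric matrices of rank `< r`.
* Its topology is the Zariski topology: a set of such spaces is closed iff the set of all their
  bases is cut out, among all bases of points of `FanoPt K n r k`, by polynomial equations in the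
  entries of the basis matrices.
* `nestedCompression K n r k s` is the set of those `Q` for which `B Q Bᵀ` is contained in the
  standard nested `s`-compression space for some invertible matrix `B`.
* `kappa n r s` is the projective dimension of the standard nested `s`-compression space.
-/

namespace Pool.Agent.Results.MP_f9dfcb_ag.Component

open Pool.Agent.Helper13.Fano

/-- For every algebraically closed field `K` (of any characteristic), all `1 ≤ r ≤ n`, all
`0 ≤ s ≤ ⌊(r - 1) / 2⌋` and all `1 ≤ k ≤ kappa n r s`, the set of nested `s`-compression spaces is
an irreducible component of the Fano scheme. -/
theorem result (K : Type*) [Field K] [IsAlgClosed K] (n r k s : ℕ)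
    (hr : 1 ≤ r) (hrn : r ≤ n) (hs : s ≤ (r - 1) / 2) (hk : 1 ≤ k) (hk' : k ≤ kappa n r s) :
    nestedCompression K n r k s ∈ irreducibleComponents (FanoPt K n r k) :=
  main_theorem K n r k s hr hrn hs hk hk'

end Pool.Agent.Results.MP_f9dfcb_ag.Component
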